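import Mathlib
import Pool.Agent.H507R3.RamAll
import Pool.Agent.TH134.TR.Steps
import Pool.Agent.TH134.TR.Upper

/-!
# The hypergraph Ramsey number `r_k(k+1)` has tower-type growth

`ramsey k s t` is the least `n` such that every colouring of the `k`-element subsets of an
`n`-element set with two colours has `s` points all of whose `k`-subsets have the first colour or
`t` points all of whose `k`-subsets have the second colour.  The theorem says that
`twr (k / 2 - 6) < r_k(k+1) ≤ twr (3 k)` for all `k ≥ 12`; in particular `r_k(k+1) ≥ twr (c k)` for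
a positive constant `c` and all large `k`.
-/

set_option autoImplicit false

namespace Pool.Agent.Results.MP_3aefc9_co.TowerGrowth

open Pool.Agent.TH134.TR Filter

/-- The tower function `twr 1 = 2`, `twr (i + 1) = 2 ^ twr i` (and `twr 0 = 1`). -/
def twr : ℕ → ℕ
  | 0 => 1
  | i + 1 => 2 ^ twr i

/-- Every colouring of the `k`-subsets of an `n`-element set with two colours has an `s`-subset all
of whose `k`-subsets are red (`true`) or a `t`-subset all of whose `k`-subsets are blue. -/
def Arrows (k s t n : ℕ) : Prop :=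
  ∀ col : Finset (Fin n) → Bool,
    (∃ S : Finset (Fin n), S.card = s ∧ ∀ e : Finset (Fin n), e ⊆ S → e.card = k → col e = true) ∨
    (∃ T : Finset (Fin n), T.card = t ∧ ∀ e : Finset (Fin n), e ⊆ T → e.card = k → col e = false)

/-- The Ramsey number `r_k(s, t)`. -/
noncomputable def ramsey (k s t : ℕ) : ℕ := sInf {n : ℕ | Arrows k s t n}

theorem twr_eq (i : ℕ) : twr i = Pool.Agent.TH134.TR.twr i := by
  induction i with
  | zero => rfl
  | succ i ih =>
    show 2 ^ twr i = 2 ^ Pool.Agent.TH134.TR.twr i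
    rw [ih]

theorem exists_arrows (k s t : ℕ) : ∃ n, Arrows k s t n := by
  obtain ⟨N, hN⟩ := Pool.Agent.H507R3.RamAll.ramsey_finset Bool k (max s t)
  refine ⟨N, fun col => ?_⟩
  obtain ⟨T, hT, hTc, b, hb⟩ := hN ((Finset.univ : Finset (Fin N)).map Fin.valEmbedding)
    (fun e => col (Finset.univ.filter (fun x : Fin N => (x : ℕ) ∈ e)))
    (by rw [Finset.card_map, Finset.card_univ, Fintype.card_fin])
  have hTN : ∀ x ∈ T, x < N := by
    intro x hx
    obtain ⟨y, -, rfl⟩ := Finset.mem_map.1 (hT hx)
    exact y.2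
  set T' : Finset (Fin N) := Finset.univ.filter (fun x : Fin N => (x : ℕ) ∈ T) with hT'
  have hT'm : T'.map Fin.valEmbedding = T := by
    ext x
    constructor
    · intro hx
      obtain ⟨y, hy, rfl⟩ := Finset.mem_map.1 hx
      exact (Finset.mem_filter.1 hy).2
    · intro hx
      exact Finset.mem_map.2 ⟨⟨x, hTN x hx⟩, Finset.mem_filter.2 ⟨Finset.mem_univ _, hx⟩, rfl⟩
  have hT'c : T'.card = max s t := by
    rw [← hTc, ← hT'm, Finset.card_map]
  have key : ∀ e : Finset (Fin N), e ⊆ T' → e.card = k → col e = b := by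
    intro e he hek
    have h1 := hb (e.map Fin.valEmbedding) (by
      rw [← hT'm]
      exact Finset.map_subset_map.2 he) (by rw [Finset.card_map, hek])
    have h2 : Finset.univ.filter (fun x : Fin N => (x : ℕ) ∈ e.map Fin.valEmbedding) = e := by
      ext x
      simp only [Finset.mem_filter, Finset.mem_univ, true_and, Finset.mem_map]
      constructor
      · rintro ⟨y, hy, hyx⟩
        have : y = x := Fin.ext hyx
        rw [← this]; exact hy
      · intro hx
        exact ⟨x, hx, rfl⟩
    rw [h2] at h1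
    exact h1
  cases b with
  | true =>
    obtain ⟨S, hS, hSc⟩ := Finset.exists_subset_card_eq (show s ≤ T'.card by omega)
    exact Or.inl ⟨S, hSc, fun e he hek => key e (he.trans hS) hek⟩
  | false =>
    obtain ⟨S, hS, hSc⟩ := Finset.exists_subset_card_eq (show t ≤ T'.card by omega)
    exact Or.inr ⟨S, hSc, fun e he hek => key e (he.trans hS) hek⟩

theorem arrows_ramsey (k s t : ℕ) : Arrows k s t (ramsey k s t) :=
  Nat.sInf_mem (exists_arrows k s t)

/-- The members of a `k`-element set in increasing order, as a sequence. -/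
noncomputable def enum {n : ℕ} (k : ℕ) (e : Finset (Fin n)) (h : e.card = k) : ℕ → ℕ :=
  fun i => if hi : i < k then (e.orderEmbOfFin h ⟨i, hi⟩ : ℕ) else 0

open Classical in
/-- The colouring. -/
noncomputable def colour (s k n : ℕ) : Finset (Fin n) → Bool :=
  fun e => if h : e.card = k then G s (enum k e h) else false

/-- The set with the member number `m` deleted. -/
def del {n k : ℕ} (V : Finset (Fin n)) (hV : V.card = k + 1) (m : Fin (k + 1)) : Finset (Fin n) :=
  Finset.univ.map ((Fin.succAboveEmb m).trans (V.orderEmbOfFin hV).toEmbedding)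

theorem del_card {n k : ℕ} (V : Finset (Fin n)) (hV : V.card = k + 1) (m : Fin (k + 1)) :
    (del V hV m).card = k := by
  unfold del
  rw [Finset.card_map, Finset.card_univ, Fintype.card_fin]

theorem del_sub {n k : ℕ} (V : Finset (Fin n)) (hV : V.card = k + 1) (m : Fin (k + 1)) :
    del V hV m ⊆ V := by
  intro x hx
  obtain ⟨y, -, rfl⟩ := Finset.mem_map.1 hx
  exact Finset.orderEmbOfFin_mem V hV _

theorem del_enum {n k : ℕ} (V : Finset (Fin n)) (hV : V.card = k + 1) (m : Fin (k + 1)) (i : ℕ)
    (hi : i < k) : enum k (del V hV m) (del_card V hV m) i =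
      enum (k + 1) V hV (if i < m then i else i + 1) := by
  have h1 : (fun i : Fin k => V.orderEmbOfFin hV (m.succAbove i)) =
      (del V hV m).orderEmbOfFin (del_card V hV m) := by
    apply Finset.orderEmbOfFin_unique
    · intro x
      exact Finset.mem_map.2 ⟨x, Finset.mem_univ _, rfl⟩
    · exact (V.orderEmbOfFin hV).strictMono.comp (Fin.strictMono_succAbove m)
  have h2 := congrFun h1 ⟨i, hi⟩
  unfold enum
  rw [dif_pos hi, ← h2]
  by_cases him : i < (m : ℕ)
  · rw [if_pos him, dif_pos (by omega)]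
    rw [Fin.succAbove_of_castSucc_lt _ _ (by rw [Fin.lt_def]; exact him)]
    rfl
  · rw [if_neg him, dif_pos (by omega)]
    rw [Fin.succAbove_of_le_castSucc _ _ (by rw [Fin.le_def]; exact Nat.le_of_not_lt him)]
    rfl

theorem not_mono (s k n : ℕ) (hk : 2 * (s + 6) ≤ k) (hn : n ≤ M s) (V : Finset (Fin n))
    (hV : V.card = k + 1) (b : Bool)
    (h : ∀ e : Finset (Fin n), e ⊆ V → e.card = k → colour s k n e = b) : False := by
  have key : ∀ m : Fin (k + 1), G s (enum k (del V hV m) (del_card V hV m)) = b := by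
    intro m
    have h1 := h (del V hV m) (del_sub V hV m) (del_card V hV m)
    unfold colour at h1
    rw [dif_pos (del_card V hV m)] at h1
    exact h1
  refine G_ne s (enum (k + 1) V hV) (enum k (del V hV 0) (del_card V hV 0))
    (enum k (del V hV ⟨s + 6, by omega⟩) (del_card V hV ⟨s + 6, by omega⟩))
    (enum k (del V hV ⟨2 * (s + 6), by omega⟩) (del_card V hV ⟨2 * (s + 6), by omega⟩))
    ?_ ?_ ?_ ?_ ?_ ⟨?_, ?_⟩
  · intro i j hij hj
    unfold enum
    rw [dif_pos (by omega), dif_pos (by omega)]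
    exact (V.orderEmbOfFin hV).strictMono (by rw [Fin.lt_def]; exact hij)
  · intro i hi
    unfold enum
    rw [dif_pos (by omega)]
    exact lt_of_lt_of_le (Fin.is_lt _) hn
  · intro i hi
    rw [del_enum V hV 0 i (by omega), if_neg (by simp)]
  · intro i hi
    rw [del_enum V hV _ i (by omega)]
    split_ifs <;> rfl
  · intro i hi
    rw [del_enum V hV _ i (by omega), if_pos hi]
  · rw [key, key]
  · rw [key, key]

theorem M_lower (s : ℕ) : 2 * twr s + 4 ≤ M s := by
  induction s with
  | zero => exact le_rfl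
  | succ s ih =>
    show 2 * 2 ^ twr s + 4 ≤ 2 ^ (M s / 2)
    have h1 : twr s + 2 ≤ M s / 2 := by omega
    have h2 : 1 ≤ twr s := by
      cases s with
      | zero => exact le_rfl
      | succ s => exact Nat.one_le_two_pow
    calc 2 * 2 ^ twr s + 4 ≤ 2 ^ (twr s + 2) := by
          rw [pow_add]
          have h3 : 2 ^ 1 ≤ 2 ^ twr s := Nat.pow_le_pow_right (by norm_num) h2
          omega
      _ ≤ 2 ^ (M s / 2) := Nat.pow_le_pow_right (by norm_num) h1

theorem lower (k : ℕ) (hk : 12 ≤ k) : M (k / 2 - 6) < ramsey k (k + 1) (k + 1) := by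
  by_contra hcon
  have hle : ramsey k (k + 1) (k + 1) ≤ M (k / 2 - 6) := Nat.le_of_not_lt hcon
  have hk2 : 2 * (k / 2 - 6 + 6) ≤ k := by omega
  rcases arrows_ramsey k (k + 1) (k + 1) (colour (k / 2 - 6) k _) with ⟨V, hV, h⟩ | ⟨V, hV, h⟩
  · exact not_mono _ k _ hk2 hle V hV true h
  · exact not_mono _ k _ hk2 hle V hV false h

theorem upper (k : ℕ) (hk : 1 ≤ k) : ramsey k (k + 1) (k + 1) ≤ twr (3 * k) := by
  apply Nat.sInf_le
  obtain ⟨k, rfl⟩ : ∃ j, k = j + 1 := ⟨k - 1, by omega⟩
  intro col
  have hB : B (k + 1) ≤ twr (3 * (k + 1)) := by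
    rw [twr_eq]
    have := B_le k
    omega
  generalize twr (3 * (k + 1)) = N at hB col
  obtain ⟨T, hT, hTc, c, hTh⟩ := homogeneous k (Finset.range N) (by simpa using hB)
    (fun x => if col (Finset.univ.filter (fun y : Fin N => ∃ l, x l = y)) = true then 1 else 0)
  have hTN : ∀ x ∈ T, x < N := fun x hx => Finset.mem_range.1 (hT hx)
  set T' : Finset (Fin N) := Finset.univ.filter (fun x : Fin N => (x : ℕ) ∈ T) with hT'
  have hT'm : T'.map Fin.valEmbedding = T := by
    ext x
    constructor
    · intro hx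
      obtain ⟨y, hy, rfl⟩ := Finset.mem_map.1 hx
      exact (Finset.mem_filter.1 hy).2
    · intro hx
      exact Finset.mem_map.2 ⟨⟨x, hTN x hx⟩, Finset.mem_filter.2 ⟨Finset.mem_univ _, hx⟩, rfl⟩
  have hT'c : T'.card = k + 2 := by
    rw [← hTc, ← hT'm, Finset.card_map]
  have key : ∀ e : Finset (Fin N), e ⊆ T' → ∀ he : e.card = k + 1,
      (if col e = true then (1 : Fin 2) else 0) = c := by
    intro e he hek
    have h1 := hTh (fun l => (e.orderEmbOfFin hek l : ℕ))
      (fun i j hij => (e.orderEmbOfFin hek).strictMono hij)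
      (fun l => (Finset.mem_filter.1 (he (Finset.orderEmbOfFin_mem e hek l))).2)
    have h2 : Finset.univ.filter (fun y : Fin N => ∃ l, (e.orderEmbOfFin hek l : ℕ) = y) = e := by
      ext y
      simp only [Finset.mem_filter, Finset.mem_univ, true_and]
      constructor
      · rintro ⟨l, hl⟩
        have : e.orderEmbOfFin hek l = y := Fin.ext hl
        rw [← this]
        exact Finset.orderEmbOfFin_mem e hek l
      · intro hy
        have h3 : y ∈ Set.range (e.orderEmbOfFin hek) := by
          rw [Finset.range_orderEmbOfFin]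
          exact hy
        obtain ⟨l, hl⟩ := h3
        exact ⟨l, by rw [hl]⟩
    rw [h2] at h1
    exact h1
  by_cases hc : c = 1
  · left
    refine ⟨T', hT'c, fun e he hek => ?_⟩
    have h1 := key e he hek
    by_contra hne
    rw [if_neg hne, hc] at h1
    exact absurd h1 (by decide)
  · right
    refine ⟨T', hT'c, fun e he hek => ?_⟩
    have h1 := key e he hek
    by_contra hne
    rw [if_pos (by simpa using hne)] at h1
    exact hc h1.symm

/-- **Tower-type growth of `r_k(k+1)`.** -/
theorem result :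
    (∀ k s t : ℕ, Arrows k s t (ramsey k s t)) ∧
    (∀ k : ℕ, 12 ≤ k → twr (k / 2 - 6) < ramsey k (k + 1) (k + 1)) ∧
    (∀ k : ℕ, 1 ≤ k → ramsey k (k + 1) (k + 1) ≤ twr (3 * k)) ∧
    ∃ c : ℝ, 0 < c ∧ ∀ᶠ k : ℕ in atTop, twr ⌈c * (k : ℝ)⌉₊ ≤ ramsey k (k + 1) (k + 1) := by
  have hlow : ∀ k : ℕ, 12 ≤ k → twr (k / 2 - 6) < ramsey k (k + 1) (k + 1) := by
    intro k hk
    have h1 := lower k hk
    have h2 := M_lower (k / 2 - 6)
    omega
  refine ⟨arrows_ramsey, hlow, upper, 1 / 3, by norm_num, ?_⟩
  filter_upwards [eventually_ge_atTop 60] with k hk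
  refine le_trans ?_ (hlow k (by omega)).le
  rw [twr_eq, twr_eq]
  apply twr_mono
  have h1 : ⌈(1 / 3 : ℝ) * (k : ℝ)⌉₊ ≤ k / 3 + 1 := by
    rw [Nat.ceil_le]
    have h2 : (k : ℝ) < 3 * ((k / 3 : ℕ) : ℝ) + 3 := by
      have : k < 3 * (k / 3) + 3 := by omega
      exact_mod_cast this
    push_cast
    linarith
  omega

end Pool.Agent.Results.MP_3aefc9_co.TowerGrowth
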